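import Pool.Agent.INJ.AllC

set_option autoImplicit false

/-!
# MP_dda0f0_gt: the injectivity conjecture for fibrewise eps-maps fails

`M ≅ S^1 × Q`, complex K-theory. See `Pool/Agent/INJ/Blueprint.md` and `CBlueprint.md`.
-/

namespace Pool.Agent.Results.MP_dda0f0_gt.NotInjective

open INJ

/-- There are a metric space `M` homeomorphic to `S^1 × Q`, a compact connected locally connected
metric space `B`, a finite open cover `U` of `B` and idempotent matrices `a`, `a'` over the nerve of
`U` whose classes in `K⁰` of the nerve stay different on the nerve of every refinement of `U`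
(a nonzero class of the Cech extension of complex K-theory), such that for every `ε > 0` there are a
Hurewicz fibration `p : E → B` with fibres isometric to `M` and a surjective fibrewise `ε`-map
`f : E → M × B` (close to the isometries) for which the class becomes zero on the nerve of some
refinement of the pulled back cover of `E`. -/
theorem result :
    ∃ (M : Type) (_ : MetricSpace M) (B : Type) (_ : MetricSpace B) (d n : ℕ)
      (U : Fin n → Set B) (a a' : (Fin n → ℝ) → Matrix (Fin d) (Fin d) ℂ),
      Nonempty (M ≃ₜ Circle × (ℕ → unitInterval)) ∧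
      CompactSpace B ∧ ConnectedSpace B ∧ LocallyConnectedSpace B ∧ IsCov U ∧
      ContinuousOn a (Nerve U) ∧ ContinuousOn a' (Nerve U) ∧
      (∀ x ∈ Nerve U, a x * a x = a x) ∧ (∀ x ∈ Nerve U, a' x * a' x = a' x) ∧
      (∀ (m : ℕ) (V : Fin m → Set B) (ρ : Fin m → Fin n), IsCov V → (∀ i, V i ⊆ U (ρ i)) →
        ¬ K0Eq (fun x : Nerve V => a (pushN ρ x.1)) (fun x : Nerve V => a' (pushN ρ x.1))) ∧
      ∀ ε : ℝ, 0 < ε → ∃ (E : Type) (_ : MetricSpace E) (p : E → B) (f : E → M × B),
        CompactSpace E ∧ Continuous p ∧ IsHurewicz p ∧ Continuous f ∧ (∀ x, (f x).2 = p x) ∧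
        (∀ b, ∃ i : M → E, Isometry i ∧ Set.range i = p ⁻¹' {b} ∧
          ∀ m, dist (f (i m)).1 m < ε) ∧
        Function.Surjective f ∧ (∀ z, Metric.diam (f ⁻¹' {z}) < ε) ∧
        ∃ (m : ℕ) (W : Fin m → Set E) (ρ : Fin m → Fin n), IsCov W ∧
          (∀ i, ∀ x ∈ W i, (f x).2 ∈ U (ρ i)) ∧
          K0Eq (fun x : Nerve W => a (pushN ρ x.1)) (fun x : Nerve W => a' (pushN ρ x.1)) :=
  mainC_all

end Pool.Agent.Results.MP_dda0f0_gt.NotInjective
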