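import Pool.Agent.FEM.Main

set_option autoImplicit false

/-! Sections of maps with isometric fibres whose small balls are round. -/

namespace Pool.Agent.Results.MP_dda0f0_gt.RoundBalls

open Pool.Agent.FEM TopologicalSpace

/-- Let `M` be a compact metric space whose balls are round below `r`, let `E` be a compact metric
space, `B` compact metrizable and `p : E → B` continuous with all fibres isometric to `M`.  Let
`f : E → Y × B` be a map over `B` such that for some `y₀ : Y` and all `b` the set `f⁻¹(y₀, b)` is
nonempty and has diameter less than `r / 2`.  Then `p` has a continuous section, and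
`f^* ∘ π^* : h(B) → h(E)` is injective for every contravariant functor `h`. -/
theorem result (M : Type) [MetricSpace M] [CompactSpace M] (r : ℝ) (hM : RoundBelow M r)
    (B E Y : Type) [TopologicalSpace B] [CompactSpace B] [MetrizableSpace B]
    [MetricSpace E] [CompactSpace E] [MetricSpace Y] [CompactSpace Y]
    (p : C(E, B)) (hiso : IsometricFibers M p) (f : C(E, Y × B)) (hf : ∀ e, (f e).2 = p e)
    (y₀ : Y) (hne : ∀ b, (f ⁻¹' {(y₀, b)}).Nonempty)
    (hsm : ∀ b, Metric.diam (f ⁻¹' {(y₀, b)}) < r / 2) :
    (∃ s : C(B, E), ∀ b, p (s b) = b) ∧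
      ∀ h : ContraFunctor, Function.Injective fun a : h.obj B =>
        h.map f (h.map (ContinuousMap.snd : C(Y × B, B)) a) :=
  section_of_round M hM p hiso f hf y₀ hne hsm

end Pool.Agent.Results.MP_dda0f0_gt.RoundBalls
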