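import Pool.Agent.FEM.Main

set_option autoImplicit false

/-! The injectivity conjecture for fibrewise epsilon-maps holds for spheres with metrics whose
small balls are round. -/

namespace Pool.Agent.Results.MP_dda0f0_gt.Spheres

open Pool.Agent.FEM Metric

/-- The injectivity property of Q1, with an `ε` which depends only on `M`, holds for every metric
space `M` which is homeomorphic to a sphere and whose small balls are round. -/
theorem result (n : ℕ) (M : Type) [MetricSpace M] [CompactSpace M]
    (hM : Nonempty (M ≃ₜ sphere (0 : EuclideanSpace ℝ (Fin (n + 1))) 1))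
    (hr : ∃ r > 0, RoundBelow M r) : ∃ ε > 0, InjectivityAt M ε := by
  obtain ⟨h⟩ := hM
  obtain ⟨r, hr, hM⟩ := hr
  obtain ⟨ε₀, hε₀, hS⟩ := smallMapsSurjective_of_sphere n M h
  have hne : Nonempty M := by
    obtain ⟨x, hx⟩ : (sphere (0 : EuclideanSpace ℝ (Fin (n + 1))) 1).Nonempty :=
      NormedSpace.sphere_nonempty.2 zero_le_one
    exact ⟨h.symm ⟨x, hx⟩⟩
  exact ⟨min ε₀ (r / 2), lt_min hε₀ (by positivity), injectivity_of_round M hM hS⟩

end Pool.Agent.Results.MP_dda0f0_gt.Spheres
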